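import Pool.Agent.H92R3.CxO

/-!
# Equidecomposability with respect to a group of isometries containing the translations

Version of parts of `Pool/Agent/H92R3` (equidecomposability of functions, folding, cancellation of
multiples) in which the isometries are taken from a given group that contains the translations.
-/

set_option autoImplicit false
set_option linter.unusedVariables false

namespace Pool.Agent.Y473.HC

open MeasureTheory Set Filter Topology Pool.Agent.H92R3.Canc

noncomputable section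

variable {n : ℕ}

/-- equidecomposability of nonnegative functions -/
def EqG (Γ : Subgroup (E n ≃ᵢ E n)) (u v : E n → ℤ) : Prop :=
  ∃ (ι : Type) (_ : Fintype ι) (f : ι → E n → ℤ) (g : ι → E n ≃ᵢ E n), (∀ i, g i ∈ Γ) ∧
    (∀ i, J (f i)) ∧ (∀ i x, 0 ≤ f i x) ∧ (∀ᵐ x, u x = ∑ i, f i x) ∧ ∀ᵐ x, v x = ∑ i, f i ((g i).symm x)

variable {Γ : Subgroup (E n ≃ᵢ E n)}

/-- the group contains the translations -/
def HasTr (Γ : Subgroup (E n ≃ᵢ E n)) : Prop := ∀ v : E n, IsometryEquiv.addRight v ∈ Γ

theorem EqG.congr {u v u' v' : E n → ℤ} (h : EqG Γ u v) (hu : ∀ᵐ x, u' x = u x) (hv : ∀ᵐ x, v' x = v x) :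
    EqG Γ u' v' := by
  obtain ⟨ι, _, f, g, hg, h1, h2, h3, h4⟩ := h
  refine ⟨ι, inferInstance, f, g, hg, h1, h2, ?_, ?_⟩
  · filter_upwards [h3, hu] with x a b
    rw [b, a]
  · filter_upwards [h4, hv] with x a b
    rw [b, a]

theorem EqG.symm {u v : E n → ℤ} (h : EqG Γ u v) : EqG Γ v u := by
  obtain ⟨ι, _, f, g, hg, h1, h2, h3, h4⟩ := h
  refine ⟨ι, inferInstance, fun i x => f i ((g i).symm x), fun i => (g i).symm,
    fun i => Γ.inv_mem (hg i), fun i => (h1 i).iso _,
    fun i x => h2 i _, h4, ?_⟩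
  filter_upwards [h3] with x a
  rw [a]
  simp

theorem EqG.zero : EqG Γ (0 : E n → ℤ) 0 :=
  ⟨Empty, inferInstance, fun i => i.elim, fun i => i.elim, fun i => i.elim, fun i => i.elim,
    fun i => i.elim, by simp, by simp⟩

theorem EqG.add {u v u' v' : E n → ℤ} (h : EqG Γ u v) (h' : EqG Γ u' v') :
    EqG Γ (fun x => u x + u' x) (fun x => v x + v' x) := by
  obtain ⟨ι, _, f, g, hg, h1, h2, h3, h4⟩ := h
  obtain ⟨κ, _, f', g', hg', h1', h2', h3', h4'⟩ := h'
  refine ⟨ι ⊕ κ, inferInstance, Sum.elim f f', Sum.elim g g', ?_, ?_, ?_, ?_, ?_⟩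
  · rintro (i | i)
    · exact hg i
    · exact hg' i
  · rintro (i | i)
    · exact h1 i
    · exact h1' i
  · rintro (i | i)
    · exact h2 i
    · exact h2' i
  · filter_upwards [h3, h3'] with x a b
    rw [Fintype.sum_sum_type, a, b]
    rfl
  · filter_upwards [h4, h4'] with x a b
    rw [Fintype.sum_sum_type, a, b]
    rfl

theorem EqG.sum {ι : Type*} (s : Finset ι) {u v : ι → E n → ℤ} (h : ∀ i ∈ s, EqG Γ (u i) (v i)) :
    EqG Γ (fun x => ∑ i ∈ s, u i x) (fun x => ∑ i ∈ s, v i x) := by
  classical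
  induction s using Finset.induction_on with
  | empty =>
    simp only [Finset.sum_empty]
    exact EqG.zero
  | insert a s ha ih =>
    simp only [Finset.sum_insert ha]
    exact (h a (Finset.mem_insert_self _ _)).add (ih fun i hi => h i (Finset.mem_insert_of_mem hi))

theorem EqG.iso {u : E n → ℤ} (hu : J u) (h0 : ∀ x, 0 ≤ u x) (g : E n ≃ᵢ E n) (hg : g ∈ Γ) :
    EqG Γ u (fun x => u (g.symm x)) :=
  ⟨Unit, inferInstance, fun _ => u, fun _ => g, fun _ => hg, fun _ => hu, fun _ => h0, by simp,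
    by simp⟩

theorem EqG.refl {u : E n → ℤ} (hu : J u) (h0 : ∀ x, 0 ≤ u x) : EqG Γ u u :=
  EqG.iso hu h0 (IsometryEquiv.refl _) Γ.one_mem

theorem EqG.J_left {u v : E n → ℤ} (h : EqG Γ u v) : J u := by
  obtain ⟨ι, _, f, g, hg, h1, h2, h3, h4⟩ := h
  refine (J.sum Finset.univ fun i _ => h1 i).congr ?_
  filter_upwards [h3] with x a
  rw [a, Finset.sum_apply]

theorem EqG.J_right {u v : E n → ℤ} (h : EqG Γ u v) : J v := h.symm.J_left

theorem EqG.trans {u v w : E n → ℤ} (h : EqG Γ u v) (h' : EqG Γ v w) : EqG Γ u w := by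
  obtain ⟨ι, _, f, g, hg, h1, h2, h3, h4⟩ := h
  obtain ⟨κ, _, q, k, hk, h1', h2', h3', h4'⟩ := h'
  obtain ⟨M, hM0, hMn, hM⟩ := exists_matrixZ ι κ
  let r : ι → E n → ℤ := fun i x => f i ((g i).symm x)
  have hr : ∀ i, J (r i) := fun i => (h1 i).iso _
  let s : ι → κ → E n → ℤ := fun i j x => M (fun i => r i x) (fun j => q j x) i j
  have hs : ∀ i j, J (s i j) := fun i j =>
    (J.pi hr).map₂ (J.pi h1') (fun a b => M a b i j) (by rw [hM0]; rfl)
  have hrq : ∀ᵐ x, (∀ i, ∑ j, s i j x = r i x) ∧ ∀ j, ∑ i, s i j x = q j x := by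
    filter_upwards [h4, h3'] with x a b
    exact hM _ _ (fun i => h2 i _) (fun j => h2' j _) (by rw [← b, a])
  refine ⟨ι × κ, inferInstance, fun p x => s p.1 p.2 (g p.1 x), fun p => (g p.1).trans (k p.2),
    fun p => Γ.mul_mem (hk p.2) (hg p.1), fun p => (hs _ _).iso _, fun p x => hMn _ _ _ _, ?_, ?_⟩
  · have : ∀ᵐ x, ∀ i, ((∀ i', ∑ j, s i' j (g i x) = r i' (g i x)) ∧ ∀ j, ∑ i', s i' j (g i x) = q j (g i x)) :=
      eventually_countable_forall.2 fun i => ae_iso (g i) hrq
    filter_upwards [h3, this] with x a b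
    rw [a, Fintype.sum_prod_type]
    apply Finset.sum_congr rfl
    intro i _
    rw [(b i).1 i]
    simp [r]
  · have : ∀ᵐ x, ∀ j, ((∀ i', ∑ j', s i' j' ((k j).symm x) = r i' ((k j).symm x)) ∧
        ∀ j', ∑ i', s i' j' ((k j).symm x) = q j' ((k j).symm x)) :=
      eventually_countable_forall.2 fun j => ae_iso (k j).symm hrq
    filter_upwards [h4', this] with x a b
    rw [a, Fintype.sum_prod_type_right]
    apply Finset.sum_congr rfl
    intro j _
    rw [← (b j).2 j]
    apply Finset.sum_congr rfl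
    intro i _
    simp

theorem fold_eqG (hT : HasTr Γ) {s : ℝ} (hs : 0 < s) {u : E n → ℤ} (hu : J u) (hb : BS u) (h0 : ∀ x, 0 ≤ u x) :
    EqG Γ u (res s (Fold s u)) := by
  obtain ⟨C, h1, h2⟩ := Pool.Agent.H92R3.Canc.decomp hs hb
  have key : ∀ w ∈ box n C, EqG Γ (fun x => res s (fun y => u (y + s • vc w)) (x - s • vc w))
      (fun x => res s (fun y => u (y + s • vc w)) x) := by
    intro w _
    have hJ : J (res s (fun y => u (y + s • vc w))) := J_res (hu.tr' _)
    have hn : ∀ x, 0 ≤ res s (fun y => u (y + s • vc w)) x := by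
      intro x
      by_cases h : x ∈ Q s
      · rw [res_pos h]; exact h0 _
      · rw [res_neg h]
    have := EqG.iso (Γ := Γ) hJ hn (IsometryEquiv.addRight (s • vc w)) (hT _)
    refine this.symm.congr (Eventually.of_forall fun x => ?_) (Eventually.of_forall fun x => rfl)
    simp [IsometryEquiv.addRight_symm]
    rfl
  have := EqG.sum (box n C) key
  refine this.congr (Eventually.of_forall h1) (Eventually.of_forall fun x => ?_)
  by_cases h : x ∈ Q s
  · rw [res_pos h, h2 x h]
    apply Finset.sum_congr rfl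
    intro w _
    rw [res_pos h]
  · rw [res_neg h]
    symm
    apply Finset.sum_eq_zero
    intro w _
    rw [res_neg h]

/-- pieces of periodic functions can be shifted -/
theorem shift_eqG (hT : HasTr Γ) {s : ℝ} (hs : 0 < s) {G : E n → ℤ} (hG : ∀ x w, G (x + s • vc w) = G x) (h0 : ∀ x, 0 ≤ G x)
    (hJ : J (res s G)) (v : E n) : EqG Γ (res s G) (res s (fun x => G (x - v))) := by
  have hn : ∀ x, 0 ≤ res s G x := by
    intro x
    by_cases h : x ∈ Q s
    · rw [res_pos h]; exact h0 _
    · rw [res_neg h]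
  have h1 : EqG Γ (res s G) (fun x => res s G (x - v)) := by
    have := EqG.iso (Γ := Γ) hJ hn (IsometryEquiv.addRight v) (hT _)
    refine this.congr (Eventually.of_forall fun x => rfl) (Eventually.of_forall fun x => ?_)
    simp [IsometryEquiv.addRight_symm]
    rfl
  have h2 := fold_eqG hT hs (hJ.tr v) ((BS_res s G).tr v) (fun x => hn _)
  refine (h1.trans h2).congr (Eventually.of_forall fun x => rfl) (Eventually.of_forall fun x => ?_)
  have h3 : Fold s (fun x => res s G (x - v)) x = G (x - v) := by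
    rw [← Fold_res hs hG (x - v)]
    unfold Fold
    congr 1
    funext w
    have e : x + s • vc w - v = x - v + s • vc w := by abel
    simp only [e]
  by_cases h : x ∈ Q s
  · rw [res_pos h, res_pos h, h3]
  · rw [res_neg h, res_neg h]

theorem T3G (hT : HasTr Γ) {u v : E n → ℤ} (hu : J u) (hv : J v) (hu0 : ∀ᵐ x, 0 ≤ u x) (hv0 : ∀ᵐ x, 0 ≤ v x) {c : E n} {r : ℝ}
    (hr : 0 < r) (h1 : ∀ᵐ x, x ∈ Metric.ball c r → 1 ≤ u x) (hcob : Cob (fun x => u x - v x)) : EqG Γ u v := by
  obtain ⟨u', hu', hbu, hu'0, hu'1, huae⟩ := rep_pos' hu hu0 h1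
  obtain ⟨v', hv', hbv, hv'0, hvae⟩ := rep_pos hv hv0
  have hcob' : Cob (fun x => u' x - v' x) := hcob.congr (by
    filter_upwards [huae, hvae] with x a b
    rw [a, b])
  obtain ⟨ι, _, h, w, hh, hae⟩ := hcob'.rep
  obtain ⟨s, hs, κ, b, hb, hosc, hlow⟩ := key_est hbu hu'0 c hr hu'1 h hh
  have hfold := Fold_cob hs (fun i => (hh i).1) hae
  let Gp : ι → E n → ℤ := fun i x => max (Fold s (h i) x - κ i) 0
  let Gm : ι → E n → ℤ := fun i x => max (-(Fold s (h i) x - κ i)) 0
  have hGp_per : ∀ i x w, Gp i (x + s • vc w) = Gp i x := fun i x w => by simp only [Gp, Fold_per]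
  have hGm_per : ∀ i x w, Gm i (x + s • vc w) = Gm i x := fun i x w => by simp only [Gm, Fold_per]
  have hGp0 : ∀ i x, 0 ≤ Gp i x := fun i x => le_max_right _ _
  have hGm0 : ∀ i x, 0 ≤ Gm i x := fun i x => le_max_right _ _
  have hGpb : ∀ i x, Gp i x ≤ b := fun i x => max_le ((le_abs_self _).trans (hosc i x)) hb
  have hGmb : ∀ i x, Gm i x ≤ b := fun i x => max_le ((neg_le_abs _).trans (hosc i x)) hb
  have hGpJ : ∀ i, J (res s (Gp i)) := fun i => J_res_Fold hs (hh i).toJ (hh i).1 (fun a => max (a - κ i) 0)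
  have hGmJ : ∀ i, J (res s (Gm i)) := fun i => J_res_Fold hs (hh i).toJ (hh i).1 (fun a => max (-(a - κ i)) 0)
  have e1 : ∀ i, EqG Γ (res s (Gp i)) (res s (fun x => Gp i (x - w i))) := fun i =>
    shift_eqG hT hs (hGp_per i) (hGp0 i) (hGpJ i) (w i)
  have e2 : ∀ i, EqG Γ (res s (fun x => Gm i (x - w i))) (res s (Gm i)) := fun i =>
    (shift_eqG hT hs (hGm_per i) (hGm0 i) (hGmJ i) (w i)).symm
  have e3 : EqG Γ (fun x => ∑ i, (res s (Gp i) x + res s (fun x => Gm i (x - w i)) x))
      (fun x => ∑ i, (res s (fun x => Gp i (x - w i)) x + res s (Gm i) x)) :=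
    EqG.sum Finset.univ fun i _ => (e1 i).add (e2 i)
  let W : E n → ℤ := fun x => Fold s u' x - ∑ i, (Gp i x + Gm i (x - w i))
  have hW0 : ∀ x, 0 ≤ W x := by
    intro x
    have h2 : ∑ i, (Gp i x + Gm i (x - w i)) ≤ ∑ i : ι, (b + b) :=
      Finset.sum_le_sum fun i _ => add_le_add (hGpb i x) (hGmb i _)
    rw [Finset.sum_const, Finset.card_univ, nsmul_eq_mul] at h2
    have := hlow x
    simp only [W]
    linarith
  have hUJ : J (res s (Fold s u')) := (fold_eqG hT hs hu' hbu hu'0).J_right
  have hWJ : J (res s W) := by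
    refine (hUJ.sub e3.J_left).congr (Eventually.of_forall fun x => ?_)
    simp only [Pi.sub_apply]
    by_cases h : x ∈ Q s
    · simp only [res_pos h]
      rfl
    · simp only [res_neg h]
      simp
  have hWn : ∀ x, 0 ≤ res s W x := by
    intro x
    by_cases h : x ∈ Q s
    · rw [res_pos h]; exact hW0 _
    · rw [res_neg h]
  have e4 := (EqG.refl hWJ hWn).add e3
  have e5 : EqG Γ (res s (Fold s u')) (res s (Fold s v')) := by
    refine e4.congr (Eventually.of_forall fun x => ?_) ?_
    · by_cases h : x ∈ Q s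
      · simp only [res_pos h, W]
        ring
      · simp only [res_neg h]
        simp
    · filter_upwards [hfold] with x hx
      rw [Fold_sub hs hbu hbv] at hx
      by_cases h' : x ∈ Q s
      · simp only [res_pos h', W]
        have h2 : ∑ i, (Fold s (h i) x - Fold s (h i) (x - w i)) = ∑ i, (Gp i x + Gm i (x - w i))
            - ∑ i, (Gp i (x - w i) + Gm i x) := by
          rw [← Finset.sum_sub_distrib]
          apply Finset.sum_congr rfl
          intro i _
          have a1 : ∀ a : ℤ, a = max a 0 - max (-a) 0 := by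
            intro a
            rcases le_total 0 a with h | h
            · rw [max_eq_left h, max_eq_right (by linarith)]; ring
            · rw [max_eq_right h, max_eq_left (by linarith)]; ring
          have b1 := a1 (Fold s (h i) x - κ i)
          have b2 := a1 (Fold s (h i) (x - w i) - κ i)
          simp only [Gp, Gm]
          linarith
        rw [h2] at hx
        linarith
      · simp only [res_neg h']
        simp
  refine (((fold_eqG hT hs hu' hbu hu'0).trans e5).trans (fold_eqG hT hs hv' hbv hv'0).symm).congr huae hvae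

/-- **Cancellation for functions.** -/
theorem cancel_funG (hT : HasTr Γ) (j0 : Fin n) {u v : E n → ℤ} (hu : J u) (hv : J v) (hu0 : ∀ x, 0 ≤ u x) (hv0 : ∀ x, 0 ≤ v x)
    (k : ℕ) (hk : 0 < k) (h : EqG Γ (fun x => k * u x) (fun x => k * v x)) : EqG Γ u v := by
  have : NeZero k := ⟨hk.ne'⟩
  have hkZ : (0 : ℤ) < k := by exact_mod_cast hk
  obtain ⟨ι, _, f, g, hg, hfJ, hf0, hfu, hfv⟩ := h
  -- degenerate cases
  have deg : (∀ᵐ x, u x = 0) ∨ (∀ᵐ x, v x = 0) → EqG Γ u v := by
    intro hd
    have hall : ∀ᵐ x, ∀ i, f i x = 0 := by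
      rcases hd with hd | hd
      · filter_upwards [hd, hfu] with x a b i
        rw [a, mul_zero] at b
        exact (Finset.sum_eq_zero_iff_of_nonneg fun i _ => hf0 i x).1 b.symm i (Finset.mem_univ i)
      · have h1 : ∀ᵐ x, ∀ i, f i ((g i).symm x) = 0 := by
          filter_upwards [hd, hfv] with x a b i
          rw [a, mul_zero] at b
          exact (Finset.sum_eq_zero_iff_of_nonneg fun i _ => hf0 i ((g i).symm x)).1 b.symm i (Finset.mem_univ i)
        have h2 : ∀ᵐ x, ∀ i, f i ((g i).symm (g i x)) = 0 := by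
          have h3 : ∀ᵐ x, ∀ i, ∀ i', f i' ((g i').symm (g i x)) = 0 :=
            eventually_countable_forall.2 fun i => ae_iso (g i) h1
          filter_upwards [h3] with x a i
          exact a i i
        simpa using h2
    have hu' : ∀ᵐ x, u x = (0 : E n → ℤ) x := by
      filter_upwards [hall, hfu] with x a b
      simp only [a, Finset.sum_const_zero] at b
      have := (mul_eq_zero.1 b).resolve_left hkZ.ne'
      rw [this]; rfl
    have hv' : ∀ᵐ x, v x = (0 : E n → ℤ) x := by
      have h3 : ∀ᵐ x, ∀ i, ∀ i', f i' ((g i).symm x) = 0 :=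
        eventually_countable_forall.2 fun i => ae_iso (g i).symm hall
      filter_upwards [h3, hfv] with x a b
      simp only [a, Finset.sum_const_zero] at b
      have := (mul_eq_zero.1 b).resolve_left hkZ.ne'
      rw [this]; rfl
    exact EqG.zero.congr hu' hv'
  rcases null_or_ball hu hu0 with h1 | ⟨c, r, hr, hball⟩
  · exact deg (Or.inl h1)
  rcases null_or_ball hv hv0 with h2 | ⟨c', r', hr', hball'⟩
  · exact deg (Or.inr h2)
  -- divide the pieces
  have hw : ∀ i, ∃ w : E n → ℤ, J w ∧ (∀ x, 0 ≤ w x) ∧ Cob (fun x => f i x - k * w x) := by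
    intro i
    rcases null_or_ball (hfJ i) (hf0 i) with h3 | ⟨d, ρ, hρ, hb⟩
    · refine ⟨0, J.zero, fun x => le_rfl, Cob.zero.congr ?_⟩
      filter_upwards [h3] with x hx
      rw [hx]
      simp
    · obtain ⟨Θ, w, hΘ, hw, hae⟩ := T1 j0 k (f i) (hfJ i)
      have hc : Cob (fun x => f i x - k * w x) := by
        refine (Cob.sum Finset.univ fun i _ => Cob.gen (hΘ i) (ee j0 (mu i))).congr ?_
        filter_upwards [hae] with x a
        rw [a]
        ring
      obtain ⟨w', hw', hw'0, hc'⟩ := T4 (hfJ i) hw (Eventually.of_forall (hf0 i)) hρ hb k hk hc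
      refine ⟨w', hw', hw'0, ?_⟩
      have hkc : Cob (fun x => (k : ℤ) * (w x - w' x)) := by
        have := Cob.sum (Finset.range k) (f := fun _ x => w x - w' x) fun _ _ => hc'
        refine this.congr (Eventually.of_forall fun x => ?_)
        rw [Finset.sum_const, Finset.card_range, nsmul_eq_mul]
      refine (hc.add hkc).congr (Eventually.of_forall fun x => ?_)
      ring
  choose w hwJ hw0 hwc using hw
  have hWuJ : J (fun x => ∑ i, w i x) := by
    refine (J.sum Finset.univ fun i _ => hwJ i).congr (Eventually.of_forall fun x => ?_)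
    rw [Finset.sum_apply]
  have hWvJ : J (fun x => ∑ i, w i ((g i).symm x)) := by
    refine (J.sum Finset.univ fun i _ => (hwJ i).iso (g i).symm).congr (Eventually.of_forall fun x => ?_)
    rw [Finset.sum_apply]
  have c1 : Cob (fun x => k * (u x - ∑ i, w i x)) := by
    refine (Cob.sum Finset.univ fun i _ => hwc i).congr ?_
    filter_upwards [hfu] with x a
    rw [mul_sub, a, Finset.sum_sub_distrib, Finset.mul_sum]
  have c2 : Cob (fun x => k * (v x - ∑ i, w i ((g i).symm x))) := by
    refine (Cob.sum Finset.univ fun i _ => (hwc i).iso (g i).symm).congr ?_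
    filter_upwards [hfv] with x a
    rw [mul_sub, a, Finset.sum_sub_distrib, Finset.mul_sum]
  have d1 := T2 j0 k _ (hu.sub hWuJ) c1
  have d2 := T2 j0 k _ (hv.sub hWvJ) c2
  have g1 : EqG Γ u (fun x => ∑ i, w i x) := T3G hT hu hWuJ (Eventually.of_forall hu0)
    (Eventually.of_forall fun x => Finset.sum_nonneg fun i _ => hw0 i x) hr hball d1
  have g2 : EqG Γ v (fun x => ∑ i, w i ((g i).symm x)) := T3G hT hv hWvJ (Eventually.of_forall hv0)
    (Eventually.of_forall fun x => Finset.sum_nonneg fun i _ => hw0 i _) hr' hball' d2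
  have g3 : EqG Γ (fun x => ∑ i, w i x) (fun x => ∑ i, w i ((g i).symm x)) :=
    EqG.sum Finset.univ fun i _ => EqG.iso (hwJ i) (hw0 i) (g i) (hg i)
  exact (g1.trans g3).trans g2.symm

end

end Pool.Agent.Y473.HC
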