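import Pool.Agent.Y473.HC.Ref

/-!
# The group of equidecomposability types is torsion free; additive functions separate types
-/

set_option autoImplicit false

namespace Pool.Agent.Y473.HC

open MeasureTheory Set Filter Topology Pool.Agent.H92R3.Canc

noncomputable section

/-- an element of a torsion-free abelian group is detected by a homomorphism to `ℝ` -/
theorem exists_hom {K : Type} [AddCommGroup K] (hK : ∀ (m : ℤ) (x : K), m ≠ 0 → m • x = 0 → x = 0)
    (q : K) (hq : q ≠ 0) : ∃ Ψ : K →+ ℝ, Ψ q ≠ 0 := by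
  have hinj : Function.Injective ((zmultiplesHom K) q) := by
    intro a b hab
    rw [zmultiplesHom_apply, zmultiplesHom_apply] at hab
    by_contra hne
    apply hq
    apply hK (a - b) q (sub_ne_zero.2 hne)
    rw [sub_smul, hab, sub_self]
  obtain ⟨h, hh⟩ := (Module.Baer.of_divisible ℝ).extension_property_addMonoidHom
    ((zmultiplesHom K) q) hinj ((zmultiplesHom ℝ) 1)
  refine ⟨h, fun h0 => ?_⟩
  have h1 := DFunLike.congr_fun hh 1
  rw [AddMonoidHom.comp_apply, zmultiplesHom_apply, zmultiplesHom_apply, one_smul, one_smul, h0] at h1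
  exact zero_ne_one h1

variable {n : ℕ} {Γ : Subgroup (E n ≃ᵢ E n)}

variable (n) in
/-- the group of Jordan functions -/
def JF : AddSubgroup (E n → ℤ) where
  carrier := {f | J f}
  add_mem' := J.add
  zero_mem' := J.zero
  neg_mem' := J.neg

variable (Γ) in
/-- the relations -/
def NN : AddSubgroup (JF n) where
  carrier := {f | ∃ u v : E n → ℤ, J u ∧ J v ∧ (∀ x, 0 ≤ u x) ∧ (∀ x, 0 ≤ v x) ∧ EqG Γ u v ∧
    ∀ᵐ x, f.1 x = u x - v x}
  zero_mem' := ⟨0, 0, J.zero, J.zero, fun _ => le_rfl, fun _ => le_rfl, EqG.zero,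
    Eventually.of_forall fun x => by simp⟩
  add_mem' := by
    rintro a b ⟨u, v, hu, hv, hu0, hv0, h, hae⟩ ⟨u', v', hu', hv', hu0', hv0', h', hae'⟩
    refine ⟨fun x => u x + u' x, fun x => v x + v' x, hu.add hu', hv.add hv',
      fun x => add_nonneg (hu0 x) (hu0' x), fun x => add_nonneg (hv0 x) (hv0' x), h.add h', ?_⟩
    filter_upwards [hae, hae'] with x h1 h2
    change a.1 x + b.1 x = _
    rw [h1, h2]
    ring
  neg_mem' := by
    rintro a ⟨u, v, hu, hv, hu0, hv0, h, hae⟩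
    refine ⟨v, u, hv, hu, hv0, hu0, h.symm, ?_⟩
    filter_upwards [hae] with x h1
    change - a.1 x = _
    rw [h1]
    ring

theorem mem_NN_of_nsmul (hT : HasTr Γ) (j0 : Fin n) (k : ℕ) (hk : 0 < k) (f : JF n)
    (h : (k : ℤ) • f ∈ NN Γ) : f ∈ NN Γ := by
  obtain ⟨u, v, hu, hv, hu0, hv0, huv, hae⟩ := h
  have hp : J (fun x => max (f.1 x) 0) := J.map f.2 (fun a : ℤ => max a 0) (by simp)
  have hm : J (fun x => max (-f.1 x) 0) := J.map f.2 (fun a : ℤ => max (-a) 0) (by simp)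
  have hkm : J (fun x => (k : ℤ) * max (-f.1 x) 0) := hm.map (fun a => (k : ℤ) * a) (mul_zero _)
  have hdiff : ∀ x, f.1 x = max (f.1 x) 0 - max (-f.1 x) 0 := by
    intro x
    rcases le_total 0 (f.1 x) with h | h
    · rw [max_eq_left h, max_eq_right (by linarith)]; ring
    · rw [max_eq_right h, max_eq_left (by linarith)]; ring
  have e1 : EqG Γ (fun x => (k : ℤ) * max (f.1 x) 0 + v x) (fun x => (k : ℤ) * max (-f.1 x) 0 + v x) := by
    have e2 := (EqG.refl (Γ := Γ) hkm (fun x => mul_nonneg (by positivity) (le_max_right _ _))).add huv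
    refine e2.congr ?_ (Eventually.of_forall fun x => rfl)
    filter_upwards [hae] with x hx
    have h1 : (k : ℤ) * f.1 x = u x - v x := by
      rw [← hx]
      change _ = ((k : ℤ) • f.1) x
      rw [Pi.smul_apply, smul_eq_mul]
    have h2 := hdiff x
    have h3 : (k : ℤ) * f.1 x = (k : ℤ) * max (f.1 x) 0 - (k : ℤ) * max (-f.1 x) 0 := by
      rw [← mul_sub, ← h2]
    linarith
  have e3 := cancel_all hT j0 hp hm hv (fun x => le_max_right _ _) (fun x => le_max_right _ _)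
    hv0 k hk e1
  exact ⟨_, _, hp, hm, fun x => le_max_right _ _, fun x => le_max_right _ _, e3,
    Eventually.of_forall hdiff⟩

theorem torsion_free (hT : HasTr Γ) (j0 : Fin n) (m : ℤ) (x : JF n ⧸ NN Γ) (hm : m ≠ 0)
    (h : m • x = 0) : x = 0 := by
  obtain ⟨f, rfl⟩ := QuotientAddGroup.mk_surjective x
  rw [QuotientAddGroup.eq_zero_iff]
  have h1 : m • f ∈ NN Γ := by
    rw [← QuotientAddGroup.eq_zero_iff]
    exact h
  apply mem_NN_of_nsmul hT j0 m.natAbs (Int.natAbs_pos.2 hm)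
  rcases Int.natAbs_eq m with h2 | h2
  · rwa [← h2]
  · have h3 : ((m.natAbs : ℕ) : ℤ) = -m := by omega
    rw [h3, neg_smul]
    exact (NN Γ).neg_mem h1

/-- functions are equidecomposable if no additive invariant function separates them -/
theorem eqG_of_forall (hT : HasTr Γ) (j0 : Fin n) {u v : E n → ℤ} (hu : J u) (hv : J v)
    (hu0 : ∀ x, 0 ≤ u x) (hv0 : ∀ x, 0 ≤ v x)
    (h : ∀ Ψ : JF n →+ ℝ, (∀ (a b : E n → ℤ) (ha : J a) (hb : J b), (∀ x, 0 ≤ a x) →
      (∀ x, 0 ≤ b x) → EqG Γ a b → Ψ ⟨a, ha⟩ = Ψ ⟨b, hb⟩) → Ψ ⟨u, hu⟩ = Ψ ⟨v, hv⟩) :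
    EqG Γ u v := by
  by_contra hne
  have hq : ((⟨u, hu⟩ - ⟨v, hv⟩ : JF n) : JF n ⧸ NN Γ) ≠ 0 := by
    intro h0
    rw [QuotientAddGroup.eq_zero_iff] at h0
    obtain ⟨a, b, ha, hb, ha0, hb0, hab, hae⟩ := h0
    apply hne
    refine cancel_add hT j0 hu hv hb hu0 hv0 hb0 ?_
    refine ((EqG.refl (Γ := Γ) hv hv0).add hab).congr ?_ (Eventually.of_forall fun x => rfl)
    filter_upwards [hae] with x hx
    have h1 : u x - v x = a x - b x := hx
    linarith
  obtain ⟨Ψ, hΨ⟩ := exists_hom (torsion_free hT j0) _ hq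
  apply hΨ
  have h2 := h (Ψ.comp (QuotientAddGroup.mk' (NN Γ))) (by
    intro a b ha hb ha0 hb0 hab
    rw [← sub_eq_zero, ← map_sub, AddMonoidHom.comp_apply]
    have : (QuotientAddGroup.mk' (NN Γ)) (⟨a, ha⟩ - ⟨b, hb⟩) = 0 := by
      rw [QuotientAddGroup.mk'_apply, QuotientAddGroup.eq_zero_iff]
      exact ⟨a, b, ha, hb, ha0, hb0, hab, Eventually.of_forall fun x => rfl⟩
    rw [this, map_zero])
  rw [← sub_eq_zero, ← map_sub, AddMonoidHom.comp_apply] at h2
  exact h2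

end

end Pool.Agent.Y473.HC
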