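import Pool.Agent.Y473.HC.EqG

/-!
# Integrals of Jordan functions and equidecomposability
-/

set_option autoImplicit false

namespace Pool.Agent.Y473.HC

open MeasureTheory Set Filter Topology Pool.Agent.H92R3.Canc

noncomputable section

variable {n : ℕ} {Γ : Subgroup (E n ≃ᵢ E n)}

/-- the integral -/
def I (f : E n → ℤ) : ℝ := ∫ x, (f x : ℝ)

theorem JD.integrable {f : E n → ℤ} (hf : JD f) : Integrable (fun x => (f x : ℝ)) := by
  obtain ⟨⟨R, hR⟩, hfin, hnd⟩ := hf
  have hcl := isClosed_disc f
  have hopen : IsOpen (disc f)ᶜ := hcl.isOpen_compl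
  have hcont : ContinuousOn (fun x => (f x : ℝ)) (disc f)ᶜ := by
    intro x hx
    have h2 := not_disc.1 hx
    have h3 : ContinuousAt (fun x => (f x : ℝ)) x :=
      tendsto_const_nhds.congr' (h2.mono fun y hy => by simp only [hy])
    exact h3.continuousWithinAt
  have hae : AEStronglyMeasurable (fun x => (f x : ℝ)) (volume.restrict (disc f)ᶜ) :=
    hcont.aestronglyMeasurable hopen.measurableSet
  have hrest : (volume : Measure (E n)).restrict (disc f)ᶜ = volume := by
    rw [Measure.restrict_eq_self_of_ae_mem]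
    filter_upwards [hnd.ae] with x hx
    exact not_disc.2 hx
  rw [hrest] at hae
  obtain ⟨M, hM⟩ : ∃ M : ℝ, ∀ x, |(f x : ℝ)| ≤ M := by
    obtain ⟨M, hM⟩ := (hfin.image (fun a : ℤ => |(a : ℝ)|)).bddAbove
    exact ⟨M, fun x => hM ⟨f x, ⟨x, rfl⟩, rfl⟩⟩
  have hi : Integrable ((Metric.closedBall (0 : E n) R).indicator (fun _ => M)) := by
    refine (integrable_indicator_iff Metric.isClosed_closedBall.measurableSet).2 ?_
    exact integrableOn_const measure_closedBall_lt_top.ne
  refine hi.mono' hae (Eventually.of_forall fun x => ?_)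
  rw [Real.norm_eq_abs]
  by_cases h : x ∈ Metric.closedBall (0 : E n) R
  · rw [indicator_of_mem h]
    exact hM x
  · rw [indicator_of_notMem h]
    have : f x = 0 := by
      by_contra h2
      exact h (mem_closedBall_zero_iff.2 (hR x h2))
    simp [this]

theorem J.integrable {f : E n → ℤ} (hf : J f) : Integrable (fun x => (f x : ℝ)) := by
  obtain ⟨f', h1, h2⟩ := hf
  refine (JD.integrable h1).congr ?_
  filter_upwards [h2] with x hx
  rw [hx]

theorem I_congr {f g : E n → ℤ} (h : ∀ᵐ x, f x = g x) : I f = I g := by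
  refine integral_congr_ae ?_
  filter_upwards [h] with x hx
  rw [hx]

theorem I_zero : I (0 : E n → ℤ) = 0 := by
  simp [I]

theorem I_add {f g : E n → ℤ} (hf : J f) (hg : J g) : I (fun x => f x + g x) = I f + I g := by
  unfold I
  rw [← integral_add (J.integrable hf) (J.integrable hg)]
  simp

theorem I_sub {f g : E n → ℤ} (hf : J f) (hg : J g) : I (fun x => f x - g x) = I f - I g := by
  unfold I
  rw [← integral_sub (J.integrable hf) (J.integrable hg)]
  simp

theorem I_mul {f : E n → ℤ} (k : ℤ) : I (fun x => k * f x) = k * I f := by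
  unfold I
  rw [← integral_const_mul]
  simp

theorem I_sum {ι : Type*} (s : Finset ι) {f : ι → E n → ℤ} (hf : ∀ i ∈ s, J (f i)) :
    I (fun x => ∑ i ∈ s, f i x) = ∑ i ∈ s, I (f i) := by
  unfold I
  rw [← integral_finsetSum s fun i hi => J.integrable (hf i hi)]
  simp

theorem I_iso {f : E n → ℤ} (g : E n ≃ᵢ E n) : I (fun x => f (g x)) = I f := by
  unfold I
  exact (mp_iso g).integral_comp g.toHomeomorph.measurableEmbedding (fun x => (f x : ℝ))

theorem I_nonneg {f : E n → ℤ} (h0 : ∀ᵐ x, 0 ≤ f x) : 0 ≤ I f := by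
  refine integral_nonneg_of_ae ?_
  filter_upwards [h0] with x hx
  simpa using hx

theorem I_mono {f g : E n → ℤ} (hf : J f) (hg : J g) (h : ∀ᵐ x, f x ≤ g x) : I f ≤ I g := by
  refine integral_mono_ae (J.integrable hf) (J.integrable hg) ?_
  filter_upwards [h] with x hx
  simpa using hx

theorem I_eq_zero {f : E n → ℤ} (hf : J f) (h0 : ∀ᵐ x, 0 ≤ f x) (h : I f = 0) :
    ∀ᵐ x, f x = 0 := by
  have h1 := (integral_eq_zero_iff_of_nonneg_ae (f := fun x => (f x : ℝ)) (by
    filter_upwards [h0] with x hx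
    simpa using hx) (J.integrable hf)).1 h
  filter_upwards [h1] with x hx
  simpa using hx

theorem Eqd_I {u v : E n → ℤ} (h : EqG Γ u v) : I u = I v := by
  obtain ⟨ι, _, f, g, hg, h1, h2, h3, h4⟩ := h
  rw [I_congr h3, I_congr h4, I_sum _ fun i _ => h1 i, I_sum _ fun i _ => (h1 i).iso _]
  refine Finset.sum_congr rfl fun i _ => ?_
  exact (I_iso (g i).symm).symm

/-- representatives -/
theorem rep_JD {u : E n → ℤ} (hu : J u) (h0 : ∀ x, 0 ≤ u x) :
    ∃ u' : E n → ℤ, JD u' ∧ (∀ x, 0 ≤ u' x) ∧ ∀ᵐ x, u x = u' x := by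
  obtain ⟨f, hf, hae⟩ := hu
  have hf2 := hf.map (fun a : ℤ => max a 0) (by simp)
  refine ⟨fun x => max (f x) 0, hf2, fun x => le_max_right _ _, ?_⟩
  filter_upwards [hae] with x a
  rw [← a, max_eq_left (h0 x)]

theorem JD_sub {u v : E n → ℤ} (hu : JD u) (hv : JD v) : JD (fun x => u x - v x) := by
  obtain ⟨⟨R, hR⟩, f2, f3⟩ := hu
  obtain ⟨⟨S, hS⟩, g2, g3⟩ := hv
  refine ⟨⟨max R S, fun x hx => ?_⟩, ?_, ?_⟩
  · by_cases h : u x = 0
    · have : v x ≠ 0 := by
        intro h2
        apply hx
        simp only [h, h2, sub_zero]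
      exact (hS x this).trans (le_max_right _ _)
    · exact (hR x h).trans (le_max_left _ _)
  · refine (Set.Finite.image2 (fun a b => a - b) f2 g2).subset ?_
    rintro _ ⟨x, rfl⟩
    exact ⟨_, ⟨x, rfl⟩, _, ⟨x, rfl⟩, rfl⟩
  · exact (f3.prod g3).map fun p => p.1 - p.2

theorem J_fun_sum {ι : Type*} (s : Finset ι) {f : ι → E n → ℤ} (h : ∀ i ∈ s, J (f i)) :
    J (fun x => ∑ i ∈ s, f i x) := by
  refine (J.sum s h).congr (Eventually.of_forall fun x => ?_)
  rw [Finset.sum_apply]

/-- **Strict comparison.** A function with the smaller integral is equidecomposable with a part of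
a function with the larger integral. -/
theorem strict (hT : HasTr Γ) {u v : E n → ℤ} (hu : J u) (hv : J v) (hu0 : ∀ x, 0 ≤ u x) (hv0 : ∀ x, 0 ≤ v x)
    (h : I u < I v) : ∃ p : E n → ℤ, J p ∧ (∀ x, 0 ≤ p x) ∧ EqG Γ (fun x => u x + p x) v := by
  obtain ⟨u', hu', hu'0, hau⟩ := rep_JD hu hu0
  obtain ⟨v', hv', hv'0, hav⟩ := rep_JD hv hv0
  have hJD := JD_sub hv' hu'
  have hIpos : 0 < I v - I u := sub_pos.2 h
  obtain ⟨s0, hs0, hup⟩ := upper hJD (ε := (I v - I u) / 2) (by positivity)
  set s := s0 / 2 with hsdef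
  have hs : 0 < s := by positivity
  have hss : s < s0 := by rw [hsdef]; linarith
  have hosc := hup s hs hss
  have e1 := fold_eqG hT hs hu'.toJ hu'.1 hu'0
  have e2 := fold_eqG hT hs hv'.toJ hv'.1 hv'0
  have J1 : J (res s (Fold s u')) := e1.J_right
  have J2 : J (res s (Fold s v')) := e2.J_right
  have hfs : ∀ x, Fold s (fun x => v' x - u' x) x = Fold s v' x - Fold s u' x :=
    fun x => Fold_sub hs hv'.1 hu'.1 x
  have hres : ∀ x, res s (Fold s (fun x => v' x - u' x)) x =
      res s (Fold s v') x - res s (Fold s u') x := by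
    intro x
    by_cases h : x ∈ Q s
    · rw [res_pos h, res_pos h, res_pos h, hfs]
    · rw [res_neg h, res_neg h, res_neg h, sub_zero]
  have hIh : I (res s (Fold s (fun x => v' x - u' x))) = I v - I u := by
    rw [I_congr (Eventually.of_forall hres), I_sub J2 J1, ← Eqd_I e1, ← Eqd_I e2,
      I_congr hau, I_congr hav]
  have hJh : J (res s (Fold s (fun x => v' x - u' x))) :=
    (J2.sub J1).congr (Eventually.of_forall hres)
  have hpos : ∀ x, 0 ≤ Fold s (fun x => v' x - u' x) x := by
    intro x0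
    by_contra hneg
    push Not at hneg
    have hsn : 0 < s ^ n := by positivity
    have hle : ∀ y, (Fold s (fun x => v' x - u' x) y : ℝ) ≤ (I v - I u) / 2 / s ^ n := by
      intro y
      rw [le_div_iff₀ hsn]
      have a1 := hosc y x0
      have a2 : (Fold s (fun x => v' x - u' x) y : ℝ) ≤
          |(Fold s (fun x => v' x - u' x) y : ℝ) - Fold s (fun x => v' x - u' x) x0| := by
        have a3 := le_abs_self
          ((Fold s (fun x => v' x - u' x) y : ℝ) - Fold s (fun x => v' x - u' x) x0)
        have a4 : (Fold s (fun x => v' x - u' x) x0 : ℝ) < 0 := by exact_mod_cast hneg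
        linarith
      exact (mul_le_mul_of_nonneg_right a2 hsn.le).trans a1
    have hb : I (res s (Fold s (fun x => v' x - u' x))) ≤
        ∫ x, (Q s : Set (E n)).indicator (fun _ => (I v - I u) / 2 / s ^ n) x := by
      refine integral_mono_ae (J.integrable hJh) ?_ (Eventually.of_forall fun x => ?_)
      · refine (integrable_indicator_iff (measurableSet_Q s)).2 ?_
        refine integrableOn_const ?_
        rw [volume_Q hs]
        exact ENNReal.pow_ne_top ENNReal.ofReal_ne_top
      · by_cases h : x ∈ Q s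
        · simp only [res_pos h, indicator_of_mem h]
          exact hle x
        · simp only [res_neg h, indicator_of_notMem h]
          simp
    rw [integral_indicator (measurableSet_Q s), setIntegral_const, Measure.real, volume_Q hs,
      ENNReal.toReal_pow, ENNReal.toReal_ofReal hs.le, smul_eq_mul, mul_div_cancel₀ _ hsn.ne',
      hIh] at hb
    linarith
  refine ⟨res s (Fold s (fun x => v' x - u' x)), hJh, ?_, ?_⟩
  · intro x
    by_cases h : x ∈ Q s
    · rw [res_pos h]; exact hpos x
    · rw [res_neg h]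
  · have hp0 : ∀ x, 0 ≤ res s (Fold s (fun x => v' x - u' x)) x := by
      intro x
      by_cases h : x ∈ Q s
      · rw [res_pos h]; exact hpos x
      · rw [res_neg h]
    have e3 := e1.add (EqG.refl hJh hp0)
    have e4 : EqG Γ (fun x => u' x + res s (Fold s (fun x => v' x - u' x)) x)
        (res s (Fold s v')) := by
      refine e3.congr (Eventually.of_forall fun x => rfl) (Eventually.of_forall fun x => ?_)
      simp only [hres]
      ring
    refine (e4.trans e2.symm).congr ?_ hav
    filter_upwards [hau] with x hx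
    rw [hx]

end

end Pool.Agent.Y473.HC
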