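import Pool.Agent.Y473.HC.Int

/-!
# Refinement and cancellation for equidecomposability of functions
-/

set_option autoImplicit false

namespace Pool.Agent.Y473.HC

open MeasureTheory Set Filter Topology Pool.Agent.H92R3.Canc

noncomputable section

variable {n : ℕ} {Γ : Subgroup (E n ≃ᵢ E n)}

/-- **Refinement.** -/
theorem refine_eqd {α β : Type} [Fintype α] [Fintype β] {X : α → E n → ℤ} {Y : β → E n → ℤ}
    (hX : ∀ a, J (X a)) (hY : ∀ b, J (Y b)) (hX0 : ∀ a x, 0 ≤ X a x) (hY0 : ∀ b x, 0 ≤ Y b x)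
    (h : EqG Γ (fun x => ∑ a, X a x) (fun x => ∑ b, Y b x)) :
    ∃ Z Z' : α → β → E n → ℤ, (∀ a b, J (Z a b)) ∧ (∀ a b, J (Z' a b)) ∧
      (∀ a b x, 0 ≤ Z a b x) ∧ (∀ a b x, 0 ≤ Z' a b x) ∧ (∀ a b, EqG Γ (Z a b) (Z' a b)) ∧
      (∀ a, ∀ᵐ x, X a x = ∑ b, Z a b x) ∧ ∀ b, ∀ᵐ x, Y b x = ∑ a, Z' a b x := by
  obtain ⟨ι, _, f, g, hg, hf, hf0, h3, h4⟩ := h
  obtain ⟨M1, hM10, hM1n, hM1⟩ := exists_matrixZ α ι
  obtain ⟨M2, hM20, hM2n, hM2⟩ := exists_matrixZ β ι
  obtain ⟨M3, hM30, hM3n, hM3⟩ := exists_matrixZ α β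
  have hfg : ∀ i, J (fun x => f i ((g i).symm x)) := fun i => (hf i).iso _
  let F : α → ι → E n → ℤ := fun a i x => M1 (fun a => X a x) (fun i => f i x) a i
  let H : β → ι → E n → ℤ := fun b i x => M2 (fun b => Y b x) (fun i => f i ((g i).symm x)) b i
  have hF : ∀ a i, J (F a i) := fun a i =>
    (J.pi hX).map₂ (J.pi hf) (fun p q => M1 p q a i) (by rw [hM10]; rfl)
  have hH : ∀ b i, J (H b i) := fun b i =>
    (J.pi hY).map₂ (J.pi hfg) (fun p q => M2 p q b i) (by rw [hM20]; rfl)
  have hFm : ∀ᵐ x, (∀ a, ∑ i, F a i x = X a x) ∧ ∀ i, ∑ a, F a i x = f i x := by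
    filter_upwards [h3] with x hx
    exact hM1 _ _ (fun a => hX0 a x) (fun i => hf0 i x) hx
  have hHm : ∀ᵐ x, (∀ b, ∑ i, H b i x = Y b x) ∧ ∀ i, ∑ b, H b i x = f i ((g i).symm x) := by
    filter_upwards [h4] with x hx
    exact hM2 _ _ (fun b => hY0 b x) (fun i => hf0 i _) hx
  have hHm' : ∀ᵐ x, ∀ i, ∑ b, H b i (g i x) = f i x := by
    refine eventually_countable_forall.2 fun i => ?_
    filter_upwards [ae_iso (g i) hHm] with x hx
    rw [hx.2 i, IsometryEquiv.symm_apply_apply]
  let T : α → β → ι → E n → ℤ := fun a b i x => M3 (fun a => F a i x) (fun b => H b i (g i x)) a b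
  have hHg : ∀ b i, J (fun x => H b i (g i x)) := fun b i => (hH b i).iso (g i)
  have hT : ∀ a b i, J (T a b i) := fun a b i =>
    (J.pi fun a => hF a i).map₂ (J.pi fun b => hHg b i) (fun p q => M3 p q a b) (by rw [hM30]; rfl)
  have hT0 : ∀ a b i x, 0 ≤ T a b i x := fun a b i x => hM3n _ _ _ _
  have hTm : ∀ᵐ x, ∀ i, (∀ a, ∑ b, T a b i x = F a i x) ∧ ∀ b, ∑ a, T a b i x = H b i (g i x) := by
    filter_upwards [hFm, hHm'] with x h5 h6 i
    exact hM3 _ _ (fun a => hM1n _ _ _ _) (fun b => hM2n _ _ _ _) (by rw [h5.2 i, h6 i])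
  have hTm' : ∀ᵐ x, ∀ i, ∀ b, ∑ a, T a b i ((g i).symm x) = H b i x := by
    refine eventually_countable_forall.2 fun i => ?_
    filter_upwards [ae_iso (g i).symm hTm] with x hx b
    rw [(hx i).2 b, IsometryEquiv.apply_symm_apply]
  refine ⟨fun a b x => ∑ i, T a b i x, fun a b x => ∑ i, T a b i ((g i).symm x), ?_, ?_, ?_, ?_,
    ?_, ?_, ?_⟩
  · exact fun a b => J_fun_sum _ fun i _ => hT a b i
  · exact fun a b => J_fun_sum _ fun i _ => (hT a b i).iso (g i).symm
  · exact fun a b x => Finset.sum_nonneg fun i _ => hT0 a b i x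
  · exact fun a b x => Finset.sum_nonneg fun i _ => hT0 a b i _
  · exact fun a b => EqG.sum Finset.univ fun i _ => EqG.iso (hT a b i) (hT0 a b i) (g i) (hg i)
  · intro a
    filter_upwards [hFm, hTm] with x h5 h6
    rw [Finset.sum_comm, ← h5.1 a]
    exact Finset.sum_congr rfl fun i _ => ((h6 i).1 a).symm
  · intro b
    filter_upwards [hHm, hTm'] with x h5 h6
    rw [Finset.sum_comm, ← h5.1 b]
    exact Finset.sum_congr rfl fun i _ => (h6 i b).symm

/-- cancellation of a small function -/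
theorem cancel_small (hT : HasTr Γ) {u v c : E n → ℤ} (hu : J u) (hv : J v) (hc : J c) (hu0 : ∀ x, 0 ≤ u x)
    (hv0 : ∀ x, 0 ≤ v x) (hc0 : ∀ x, 0 ≤ c x) (hlt : 2 * I c < I u)
    (h : EqG Γ (fun x => u x + c x) (fun x => v x + c x)) : EqG Γ u v := by
  obtain ⟨Z, Z', hZ, hZ', hZ0, hZ'0, hE, hXZ, hYZ⟩ := refine_eqd
    (X := fun a : Bool => if a then u else c) (Y := fun b : Bool => if b then v else c)
    (by intro a; cases a <;> assumption) (by intro a; cases a <;> assumption)
    (by intro a x; cases a <;> simp [hu0, hc0]) (by intro a x; cases a <;> simp [hv0, hc0])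
    (h.congr (Eventually.of_forall fun x => by simp) (Eventually.of_forall fun x => by simp))
  -- u = Z tt + Z tf, c = Z ft + Z ff ; v = Z' tt + Z' ft, c = Z' tf + Z' ff
  have e1 : ∀ᵐ x, u x = Z true true x + Z true false x := by
    filter_upwards [hXZ true] with x hx
    simpa using hx
  have e2 : ∀ᵐ x, c x = Z false true x + Z false false x := by
    filter_upwards [hXZ false] with x hx
    simpa using hx
  have e3 : ∀ᵐ x, v x = Z' true true x + Z' false true x := by
    filter_upwards [hYZ true] with x hx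
    simpa using hx
  have e4 : ∀ᵐ x, c x = Z' true false x + Z' false false x := by
    filter_upwards [hYZ false] with x hx
    simpa using hx
  have i1 : I u = I (Z true true) + I (Z true false) := by
    rw [I_congr e1, I_add (hZ _ _) (hZ _ _)]
  have i2 : I c = I (Z false true) + I (Z false false) := by
    rw [I_congr e2, I_add (hZ _ _) (hZ _ _)]
  have i3 : I c = I (Z' true false) + I (Z' false false) := by
    rw [I_congr e4, I_add (hZ' _ _) (hZ' _ _)]
  have i4 : I (Z true false) = I (Z' true false) := Eqd_I (hE _ _)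
  have n1 : 0 ≤ I (Z' false false) := I_nonneg (Eventually.of_forall (hZ'0 _ _))
  have n2 : 0 ≤ I (Z false true) := I_nonneg (Eventually.of_forall (hZ0 _ _))
  obtain ⟨t, ht, ht0, hst⟩ := strict hT (hZ false false) (hZ true true) (hZ0 _ _) (hZ0 _ _)
    (by linarith)
  -- u ~ Z ff + t + Z tf ~ Z' ff + Z' tf + t = c + t
  have a1 : EqG Γ u (fun x => c x + t x) := by
    have b1 := (hst.symm).add (hE true false)
    -- Z tt + Z tf ~ (Z ff + t) + Z' tf
    have b2 := ((hE false false).add (EqG.refl ht ht0)).add (EqG.refl (hZ' true false) (hZ'0 _ _))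
    -- (Z ff + t) + Z' tf ~ (Z' ff + t) + Z' tf
    refine (b1.trans b2).congr e1 ?_
    filter_upwards [e4] with x hx
    rw [hx]
    ring
  have a2 : EqG Γ v (fun x => c x + t x) := by
    have b1 := ((hE true true).symm.trans hst.symm).add (hE false true).symm
    -- Z' tt + Z' ft ~ (Z ff + t) + Z ft
    refine b1.congr e3 ?_
    filter_upwards [e2] with x hx
    rw [hx]
    ring
  exact a1.trans a2.symm

theorem null_of_I {u v : E n → ℤ} (hu : J u) (hv : J v) (hu0 : ∀ x, 0 ≤ u x)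
    (hv0 : ∀ x, 0 ≤ v x) (h1 : I u = 0) (h2 : I v = 0) : EqG Γ u v := by
  have e1 := I_eq_zero hu (Eventually.of_forall hu0) h1
  have e2 := I_eq_zero hv (Eventually.of_forall hv0) h2
  exact EqG.zero.congr e1 e2

theorem I_res_le {s : ℝ} (hs : 0 < s) {f : E n → ℤ} (hf : J (res s f)) {M : ℝ}
    (hM : ∀ x, (f x : ℝ) ≤ M) : I (res s f) ≤ M * s ^ n := by
  have hb : I (res s f) ≤ ∫ x, (Q s : Set (E n)).indicator (fun _ => M) x := by
    refine integral_mono_ae (J.integrable hf) ?_ (Eventually.of_forall fun x => ?_)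
    · refine (integrable_indicator_iff (measurableSet_Q s)).2 ?_
      refine integrableOn_const ?_
      rw [volume_Q hs]
      exact ENNReal.pow_ne_top ENNReal.ofReal_ne_top
    · by_cases h : x ∈ Q s
      · simp only [res_pos h, indicator_of_mem h]
        exact hM x
      · simp only [res_neg h, indicator_of_notMem h]
        simp
  rw [integral_indicator (measurableSet_Q s), setIntegral_const, Measure.real, volume_Q hs,
    ENNReal.toReal_pow, ENNReal.toReal_ofReal hs.le, smul_eq_mul] at hb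
  linarith

/-- a nonnegative Jordan function is a finite sum of such functions of small integral -/
theorem small_pieces (j0 : Fin n) {w : E n → ℤ} (hw : J w) (hw0 : ∀ x, 0 ≤ w x) {ε : ℝ} (hε : 0 < ε) :
    ∃ (ι : Type) (_ : Fintype ι) (c : ι → E n → ℤ), (∀ i, J (c i)) ∧ (∀ i x, 0 ≤ c i x) ∧
      (∀ i, I (c i) < ε) ∧ ∀ᵐ x, w x = ∑ i, c i x := by
  obtain ⟨w', hw', hw'0, hae⟩ := rep_JD hw hw0
  obtain ⟨M, hM⟩ : ∃ M : ℝ, ∀ x, (w' x : ℝ) ≤ M := by
    obtain ⟨M, hM⟩ := (hw'.2.1.image (fun a : ℤ => (a : ℝ))).bddAbove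
    exact ⟨M, fun x => hM ⟨w' x, ⟨x, rfl⟩, rfl⟩⟩
  have hM0 : 0 ≤ M := by
    have := hM 0
    have h2 : (0 : ℝ) ≤ w' 0 := by exact_mod_cast hw'0 0
    linarith
  have hn : n ≠ 0 := by
    rintro rfl
    exact j0.elim0
  obtain ⟨s, hs, hsM⟩ : ∃ s : ℝ, 0 < s ∧ M * s ^ n < ε := by
    refine ⟨min 1 (ε / (2 * (M + 1))), by positivity, ?_⟩
    have h1 : (min 1 (ε / (2 * (M + 1)))) ^ n ≤ ε / (2 * (M + 1)) := by
      calc (min 1 (ε / (2 * (M + 1)))) ^ n ≤ min 1 (ε / (2 * (M + 1))) :=
            pow_le_of_le_one (by positivity) (min_le_left _ _) hn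
        _ ≤ _ := min_le_right _ _
    calc M * (min 1 (ε / (2 * (M + 1)))) ^ n ≤ M * (ε / (2 * (M + 1))) :=
          mul_le_mul_of_nonneg_left h1 hM0
      _ < ε := by
          rw [mul_div_assoc', div_lt_iff₀ (by positivity)]
          nlinarith
  obtain ⟨C, h1, -⟩ := Pool.Agent.H92R3.Canc.decomp hs hw'.1
  have hJr : ∀ v : Fin n → ℤ, J (res s (fun y => w' (y + s • vc v))) := fun v =>
    J_res (hw'.toJ.tr' _)
  refine ⟨box n C, inferInstance, fun v x => res s (fun y => w' (y + s • vc v.1)) (x - s • vc v.1),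
    fun v => (hJr v.1).tr _, fun v x => ?_, fun v => ?_, ?_⟩
  · change 0 ≤ res s (fun y => w' (y + s • vc v.1)) (x - s • vc v.1)
    by_cases h : x - s • vc v.1 ∈ Q s
    · rw [res_pos h]; exact hw'0 _
    · rw [res_neg h]
  · have h2 : I (fun x => res s (fun y => w' (y + s • vc v.1)) (x - s • vc v.1)) =
        I (res s (fun y => w' (y + s • vc v.1))) :=
      I_iso (f := res s (fun y => w' (y + s • vc v.1))) (IsometryEquiv.subRight (s • vc v.1))
    rw [h2]
    exact (I_res_le hs (hJr v.1) (fun x => hM _)).trans_lt hsM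
  · filter_upwards [hae] with x hx
    rw [hx, h1 x]
    exact (Finset.sum_coe_sort (box n C)
      (fun v => res s (fun y => w' (y + s • vc v)) (x - s • vc v))).symm

/-- **Cancellation of summands** (Zylev's theorem for functions). -/
theorem cancel_add (hT : HasTr Γ) (j0 : Fin n) {u v w : E n → ℤ} (hu : J u) (hv : J v) (hw : J w)
    (hu0 : ∀ x, 0 ≤ u x) (hv0 : ∀ x, 0 ≤ v x) (hw0 : ∀ x, 0 ≤ w x)
    (h : EqG Γ (fun x => u x + w x) (fun x => v x + w x)) : EqG Γ u v := by
  have hI : I u = I v := by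
    have := Eqd_I h
    rw [I_add hu hw, I_add hv hw] at this
    linarith
  rcases (I_nonneg (Eventually.of_forall hu0)).eq_or_lt with h0 | hpos
  · exact null_of_I hu hv hu0 hv0 h0.symm (hI ▸ h0.symm)
  obtain ⟨ι, _, c, hc, hc0, hcI, hae⟩ := small_pieces j0 hw hw0 (ε := I u / 2) (by positivity)
  classical
  have key : ∀ s : Finset ι, EqG Γ (fun x => u x + ∑ i ∈ s, c i x) (fun x => v x + ∑ i ∈ s, c i x) →
      EqG Γ u v := by
    intro s
    induction s using Finset.induction_on with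
    | empty =>
      intro h
      refine h.congr (Eventually.of_forall fun x => ?_) (Eventually.of_forall fun x => ?_) <;> simp
    | insert a s ha ih =>
      intro h
      apply ih
      have hs : J (fun x => ∑ i ∈ s, c i x) := J_fun_sum _ fun i _ => hc i
      have hs0 : ∀ x, 0 ≤ ∑ i ∈ s, c i x := fun x => Finset.sum_nonneg fun i _ => hc0 i x
      have hus : J (fun x => u x + ∑ i ∈ s, c i x) := hu.add hs
      have hvs : J (fun x => v x + ∑ i ∈ s, c i x) := hv.add hs
      refine cancel_small hT (c := c a) hus hvs (hc a) (fun x => add_nonneg (hu0 x) (hs0 x))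
        (fun x => add_nonneg (hv0 x) (hs0 x)) (hc0 a) ?_ ?_
      · have h1 := hcI a
        have h2 : 0 ≤ I (fun x => ∑ i ∈ s, c i x) := I_nonneg (Eventually.of_forall hs0)
        rw [I_add hu hs]
        linarith
      · refine h.congr (Eventually.of_forall fun x => ?_) (Eventually.of_forall fun x => ?_)
        · rw [Finset.sum_insert ha]
          ring
        · rw [Finset.sum_insert ha]
          ring
  apply key Finset.univ
  refine h.congr ?_ ?_
  · filter_upwards [hae] with x hx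
    rw [hx]
  · filter_upwards [hae] with x hx
    rw [hx]

/-- **Cancellation in general form.** -/
theorem cancel_all (hT : HasTr Γ) (j0 : Fin n) {u v w : E n → ℤ} (hu : J u) (hv : J v) (hw : J w)
    (hu0 : ∀ x, 0 ≤ u x) (hv0 : ∀ x, 0 ≤ v x) (hw0 : ∀ x, 0 ≤ w x) (k : ℕ) (hk : 0 < k)
    (h : EqG Γ (fun x => k * u x + w x) (fun x => k * v x + w x)) : EqG Γ u v := by
  have hku : J (fun x => (k : ℤ) * u x) := hu.map (fun a => (k : ℤ) * a) (mul_zero _)
  have hkv : J (fun x => (k : ℤ) * v x) := hv.map (fun a => (k : ℤ) * a) (mul_zero _)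
  refine cancel_funG hT j0 hu hv hu0 hv0 k hk (cancel_add hT j0 hku hkv hw ?_ ?_ hw0 h)
  · exact fun x => mul_nonneg (by positivity) (hu0 x)
  · exact fun x => mul_nonneg (by positivity) (hv0 x)

/-- **Cancellation for the order.** -/
theorem cancel_le (hT : HasTr Γ) (j0 : Fin n) {u v w p : E n → ℤ} (hu : J u) (hv : J v) (hw : J w) (hp : J p)
    (hu0 : ∀ x, 0 ≤ u x) (hv0 : ∀ x, 0 ≤ v x) (hw0 : ∀ x, 0 ≤ w x) (hp0 : ∀ x, 0 ≤ p x) (k : ℕ)
    (hk : 0 < k) (h : EqG Γ (fun x => k * u x + w x + p x) (fun x => k * v x + w x)) :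
    ∃ q : E n → ℤ, J q ∧ (∀ x, 0 ≤ q x) ∧ EqG Γ (fun x => u x + q x) v := by
  have hku : J (fun x => (k : ℤ) * u x) := hu.map (fun a => (k : ℤ) * a) (mul_zero _)
  have hkv : J (fun x => (k : ℤ) * v x) := hv.map (fun a => (k : ℤ) * a) (mul_zero _)
  have hk' : (0 : ℝ) < k := by exact_mod_cast hk
  have hI : k * I u + I p = k * I v := by
    have h1 := Eqd_I h
    have hkuw : J (fun x => (k : ℤ) * u x + w x) := hku.add hw
    have h3 : I (fun x => (k : ℤ) * u x + w x) = I (fun x => (k : ℤ) * u x) + I w := I_add hku hw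
    rw [I_add hkuw hp, I_add hkv hw] at h1
    have h4 : I (fun x => (k : ℤ) * u x) = k * I u := by
      rw [I_mul]
      push_cast
      rfl
    have h5 : I (fun x => (k : ℤ) * v x) = k * I v := by
      rw [I_mul]
      push_cast
      rfl
    rw [h3, h4, h5] at h1
    linarith
  rcases (I_nonneg (Eventually.of_forall hp0)).eq_or_lt with h0 | hpos
  · have hp' := I_eq_zero hp (Eventually.of_forall hp0) h0.symm
    have h6 : EqG Γ u v := by
      refine cancel_all hT j0 hu hv hw hu0 hv0 hw0 k hk (h.congr ?_ (Eventually.of_forall fun x => rfl))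
      filter_upwards [hp'] with x hx
      rw [hx, add_zero]
    exact ⟨0, J.zero, fun x => le_rfl, h6.congr (Eventually.of_forall fun x => by simp)
      (Eventually.of_forall fun x => rfl)⟩
  · have : I u < I v := by
      by_contra hc
      push Not at hc
      have := mul_le_mul_of_nonneg_left hc hk'.le
      linarith
    exact strict hT hu hv hu0 hv0 this

end

end Pool.Agent.Y473.HC
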